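import Pool.Agent.H49Z.Med.Ring

set_option autoImplicit false

namespace Pool.Agent.Results.MP_474f70_lc.ADegreeMissed

open Pool.Agent.H49Z.Med

/-- There are an infinite group `G = ⟨s₀, …, s_{r-1} | R⟩` with a recursively enumerable set `R` of
relators and a nonempty `Π⁰₁` class `P ⊆ {0,1}^ℕ` such that no subshift on `G` (effective or not,
over any finite alphabet, for any computable enumeration `e` of the words) has the Medvedev degree
of `P`. -/
theorem result : ∃ (r : ℕ) (R : Set (Word r)), REPred (· ∈ R) ∧ Infinite (Grp R) ∧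
    ∃ P : Set (ℕ → ℕ), IsPi01 P ∧ P.Nonempty ∧
      ∀ e : ℕ → Word r, Computable e → Function.Surjective e →
        ∀ (k : ℕ) (X : Set (Grp R → Fin k)), IsSubshift X → ¬ MedEquiv (hat R e X) P := by
  obtain ⟨r, R, h1, h2, P, h3, h4, h5⟩ := main_eff
  exact ⟨r, R, h1, h2, P, h3, h4, fun e he hs k X _ => h5 e he hs k X⟩

end Pool.Agent.Results.MP_474f70_lc.ADegreeMissed
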